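import Pool.Agent.Q145.LQ.Stm

set_option autoImplicit false

/-!
# Project LQ (helper145), job LQ-LOCQ (helper38): the local inequality for polynomials
-/

namespace Pool.Agent.Q38.LQ

open Finset
open Pool.Agent.Q145.SZ Pool.Agent.Q145.LQ

theorem mem_GQ {W : ℕ} [NeZero W] {K : ℕ} (q : Fin K → Polynomial ℤ) (b : Fin K → ZMod W) (x : ZMod W) :
    x ∈ GQ q b ↔ ∀ i, IsUnit (ev (q i) x + b i) := by
  unfold GQ
  simp

theorem mem_GQ_cons {W : ℕ} [NeZero W] {K : ℕ} (q : Fin K → Polynomial ℤ) (b : Fin K → ZMod W)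
    (v : Polynomial ℤ) (β x : ZMod W) :
    x ∈ GQ (Fin.cons v q : Fin (K + 1) → Polynomial ℤ) (Fin.cons β b : Fin (K + 1) → ZMod W) ↔
      x ∈ GQ q b ∧ IsUnit (ev v x + β) := by
  rw [mem_GQ, mem_GQ, Fin.forall_fin_succ]
  simp only [Fin.cons_zero, Fin.cons_succ]
  tauto

theorem mem_Us {W : ℕ} [NeZero W] (n m β : ZMod W) : β ∈ Us n m ↔ IsUnit (n + β) ∧ IsUnit (m + β) := by
  unfold Us
  simp

/-- the number of the zeros -/
theorem card_zeros {p : ℕ} [Fact p.Prime] (v : Polynomial ℤ) (S : Finset (ZMod p)) (β n : ZMod p)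
    (hn : ev v n + β ≠ 0) : (S.filter fun x => ev v x + β = 0).card ≤ v.natDegree := by
  classical
  set P : Polynomial (ZMod p) := v.map (Int.castRingHom (ZMod p)) + Polynomial.C β with hP
  have hev : ∀ x, P.eval x = ev v x + β := by
    intro x
    rw [hP, Polynomial.eval_add, Polynomial.eval_C, Polynomial.eval_map]
    unfold ev
    rw [Polynomial.aeval_def]
    rfl
  have hP0 : P ≠ 0 := by
    intro h0
    apply hn
    rw [← hev, h0, Polynomial.eval_zero]
  have h1 : (S.filter fun x => ev v x + β = 0) ⊆ P.roots.toFinset := by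
    intro x hx
    rw [mem_filter] at hx
    rw [Multiset.mem_toFinset, Polynomial.mem_roots hP0, Polynomial.IsRoot, hev]
    exact hx.2
  refine (card_le_card h1).trans ((Multiset.toFinset_card_le _).trans ((Polynomial.card_roots' P).trans ?_))
  rw [hP]
  refine (Polynomial.natDegree_add_C (a := β) (p := v.map (Int.castRingHom (ZMod p)))).le.trans ?_
  exact Polynomial.natDegree_map_le

/-- **LOCQ** of project LQ -/
theorem t_LOCQ : S_LOCQ := by
  classical
  intro hA d
  obtain ⟨C, hC, hABS⟩ := hA d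
  refine ⟨3 * C, by positivity, ?_⟩
  intro p _ k q c v n m hv hn hm
  set U := Us (ev v n) (ev v m) with hU
  rcases U.eq_empty_or_nonempty with h0 | h0
  · rw [h0]
    simp
  have hp : p.Prime := Fact.out
  have hp2 := hp.two_le
  have hpR : (0 : ℝ) < p := by exact_mod_cast hp.pos
  set S := GQ q c with hS
  obtain ⟨g, hg⟩ : ∃ g : ℕ, g = S.card := ⟨_, rfl⟩
  obtain ⟨r, hr⟩ : ∃ r : ZMod p → ℕ, r = fun β => (S.filter fun x => ev v x + β = 0).card := ⟨_, rfl⟩
  have hUn : ∀ β ∈ U, ev v n + β ≠ 0 := by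
    intro β hβ
    rw [hU, mem_Us] at hβ
    exact hβ.1.ne_zero
  have hcard : ∀ β ∈ U, (((GQ (Fin.cons v q : Fin (k + 1) → Polynomial ℤ) (Fin.cons β c)).card : ℕ) : ℝ) =
      (g : ℝ) - r β := by
    intro β _
    have h1 : GQ (Fin.cons v q : Fin (k + 1) → Polynomial ℤ) (Fin.cons β c) =
        S.filter fun x => ¬ (ev v x + β = 0) := by
      ext x
      rw [mem_GQ_cons, mem_filter, isUnit_iff_ne_zero]
    have h2 := card_filter_add_card_filter_not (s := S) (fun x => ev v x + β = 0)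
    rw [h1, hr, hg, ← h2]
    push_cast
    ring
  have hrd : ∀ β ∈ U, r β ≤ d ∧ r β + 1 ≤ g := by
    intro β hβ
    refine ⟨?_, ?_⟩
    · rw [hr]
      exact (card_zeros v S β n (hUn β hβ)).trans hv
    · rw [hr, hg]
      refine card_lt_card ?_
      rw [ssubset_iff_of_subset (filter_subset _ _)]
      exact ⟨n, hn, fun h => hUn β hβ (mem_filter.1 h).2⟩
  have hsum : ∑ β ∈ U, r β ≤ g := by
    rw [hr, hg]
    simp only [card_filter]
    rw [sum_comm, card_eq_sum_ones]
    refine sum_le_sum fun x _ => ?_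
    rw [← card_filter]
    refine card_le_one.2 fun a ha b hb => ?_
    rw [mem_filter] at ha hb
    have := ha.2.trans hb.2.symm
    exact add_left_cancel this
  have hUc : (p : ℝ) ≤ 3 * U.card := by
    have h1 : univ \ {-(ev v n), -(ev v m)} ⊆ U := by
      intro β hβ
      rw [mem_sdiff, mem_insert, mem_singleton, not_or] at hβ
      rw [hU, mem_Us, isUnit_iff_ne_zero, isUnit_iff_ne_zero]
      refine ⟨fun h => hβ.2.1 ?_, fun h => hβ.2.2 ?_⟩
      · exact eq_neg_of_add_eq_zero_right h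
      · exact eq_neg_of_add_eq_zero_right h
    have h2 := card_le_card h1
    have h3 : (univ : Finset (ZMod p)).card ≤ (univ \ {-(ev v n), -(ev v m)}).card +
        ({-(ev v n), -(ev v m)} : Finset (ZMod p)).card := by
      rw [← card_sdiff_add_card_inter univ ({-(ev v n), -(ev v m)} : Finset (ZMod p)), univ_inter]
    have h4 : ({-(ev v n), -(ev v m)} : Finset (ZMod p)).card ≤ 2 := card_le_two
    rw [card_univ, ZMod.card] at h3
    have h5 : 1 ≤ U.card := card_pos.2 h0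
    have h6 : p ≤ 3 * U.card := by omega
    exact_mod_cast h6
  have hκ : ∑ β ∈ U, (r β : ℝ) ≤ 3 / (p : ℝ) * U.card * g := by
    have h1 : ∑ β ∈ U, (r β : ℝ) ≤ g := by exact_mod_cast hsum
    have h2 : 1 ≤ 3 / (p : ℝ) * U.card := by
      rw [div_mul_eq_mul_div, le_div_iff₀ hpR, one_mul]
      exact hUc
    have h3 : (0 : ℝ) ≤ g := Nat.cast_nonneg _
    nlinarith
  have key := hABS (ZMod p) U r g (3 / (p : ℝ)) (by positivity) hrd hκ
  have e4 : ∑ β ∈ U, (((GQ (Fin.cons v q : Fin (k + 1) → Polynomial ℤ) (Fin.cons β c)).card : ℝ) ^ 4)⁻¹ =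
      ∑ β ∈ U, (((g : ℝ) - r β) ^ 4)⁻¹ := sum_congr rfl fun β hβ => by rw [hcard β hβ]
  have e2 : ∑ β ∈ U, (((GQ (Fin.cons v q : Fin (k + 1) → Polynomial ℤ) (Fin.cons β c)).card : ℝ) ^ 2)⁻¹ =
      ∑ β ∈ U, (((g : ℝ) - r β) ^ 2)⁻¹ := sum_congr rfl fun β hβ => by rw [hcard β hβ]
  rw [e4, e2]
  have e5 : 1 + 3 * C / (p : ℝ) = 1 + C * (3 / p) := by ring
  rw [e5]
  exact key

end Pool.Agent.Q38.LQ
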